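import Pool.Agent.Lib_helper34.BB.Defs

/-!
# Block POP of MP_8d7770_pr: symmetry, uniqueness and equivariance of the popping relation.
-/

open MeasureTheory ProbabilityTheory Set Metric Function
open scoped ENNReal NNReal

namespace Pool.Agent.BB

section Evol

variable {H : Type} [MetricSpace H]

/-- POP (a): symmetry -/
theorem pop_symm_proof {C : Set H} {x y : H} (h : Pop C x y) : Pop C y x := by
  obtain ⟨_, _, w, v, hx, hy, hxy, h1, h1', h2, h2'⟩ := h
  refine Pop.mk y x v w hy hx hxy.symm ?_ ?_ ?_ ?_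
  · intro z hz hzy hzx hd
    exact h2 z hz hzx hzy (by rwa [dist_comm x y])
  · intro z hz hzy hzx hd
    exact h2' z hz hzx hzy (by rwa [dist_comm x y])
  · intro z hz hzy hzx hd
    exact h1 z hz hzx hzy (by rwa [dist_comm x y])
  · intro z hz hzy hzx hd
    exact h1' z hz hzx hzy (by rwa [dist_comm x y])

theorem pop_mem_left {C : Set H} {x y : H} (h : Pop C x y) : x ∈ C := by
  obtain ⟨_, _, w, v, hx, hy, hxy, h1, h1', h2, h2'⟩ := h
  exact hx

theorem pop_mem_right {C : Set H} {x y : H} (h : Pop C x y) : y ∈ C := by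
  obtain ⟨_, _, w, v, hx, hy, hxy, h1, h1', h2, h2'⟩ := h
  exact hy

theorem pop_ne {C : Set H} {x y : H} (h : Pop C x y) : x ≠ y := by
  obtain ⟨_, _, w, v, hx, hy, hxy, h1, h1', h2, h2'⟩ := h
  exact hxy

theorem pop_left {C : Set H} {x y z : H} (h : Pop C x y) (hz : z ∈ C) (hzx : z ≠ x) (hzy : z ≠ y)
    (hd : dist x z ≤ dist x y) : ∃ w, Pop C z w ∧ dist z w < dist x z := by
  obtain ⟨_, _, w, v, hx, hy, hxy, h1, h1', h2, h2'⟩ := h
  exact ⟨w z, h1 z hz hzx hzy hd, h1' z hz hzx hzy hd⟩

theorem pop_right {C : Set H} {x y z : H} (h : Pop C x y) (hz : z ∈ C) (hzx : z ≠ x) (hzy : z ≠ y)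
    (hd : dist y z ≤ dist x y) : ∃ w, Pop C z w ∧ dist z w < dist y z := by
  obtain ⟨_, _, w, v, hx, hy, hxy, h1, h1', h2, h2'⟩ := h
  exact ⟨v z, h2 z hz hzx hzy hd, h2' z hz hzx hzy hd⟩

/-- Introduction rule with existential quantifiers. -/
theorem pop_intro {C : Set H} {x y : H} (hx : x ∈ C) (hy : y ∈ C) (hxy : x ≠ y)
    (h1 : ∀ z, z ∈ C → z ≠ x → z ≠ y → dist x z ≤ dist x y →
      ∃ w, Pop C z w ∧ dist z w < dist x z)
    (h2 : ∀ z, z ∈ C → z ≠ x → z ≠ y → dist y z ≤ dist x y →
      ∃ w, Pop C z w ∧ dist z w < dist y z) : Pop C x y := by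
  classical
  refine Pop.mk x y
    (fun z => if h : ∃ w, Pop C z w ∧ dist z w < dist x z then h.choose else z)
    (fun z => if h : ∃ w, Pop C z w ∧ dist z w < dist y z then h.choose else z)
    hx hy hxy ?_ ?_ ?_ ?_
  · intro z hz hzx hzy hd
    have h := h1 z hz hzx hzy hd
    simp only [dif_pos h]
    exact h.choose_spec.1
  · intro z hz hzx hzy hd
    have h := h1 z hz hzx hzy hd
    simp only [dif_pos h]
    exact h.choose_spec.2
  · intro z hz hzx hzy hd
    have h := h2 z hz hzx hzy hd
    simp only [dif_pos h]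
    exact h.choose_spec.1
  · intro z hz hzx hzy hd
    have h := h2 z hz hzx hzy hd
    simp only [dif_pos h]
    exact h.choose_spec.2

theorem pop_unique_aux {C : Set H} {x y : H} (h : Pop C x y) :
    ∀ c, (Pop C x c → c = y) ∧ (Pop C y c → c = x) := by
  induction h with
  | mk x y w v hx hy hxy h1 h1' h2 h2' ih1 ih2 =>
    intro c
    constructor
    · intro hc
      by_contra hcy
      have hcC := pop_mem_right hc
      have hcx := (pop_ne hc).symm
      rcases le_or_gt (dist x c) (dist x y) with hd | hd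
      · have h3 := (ih1 c hcC hcx hcy hd x).1 (pop_symm_proof hc)
        have h4 := h1' c hcC hcx hcy hd
        rw [← h3, dist_comm] at h4
        exact lt_irrefl _ h4
      · obtain ⟨u, hu1, hu2⟩ := pop_left hc hy hxy.symm (Ne.symm hcy) hd.le
        have hux : u ≠ x := by
          rintro rfl
          rw [dist_comm] at hu2
          exact lt_irrefl _ hu2
        have huy : u ≠ y := (pop_ne hu1).symm
        have huC := pop_mem_right hu1
        have h3 := (ih2 u huC hux huy hu2.le y).1 (pop_symm_proof hu1)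
        have h4 := h2' u huC hux huy hu2.le
        rw [← h3, dist_comm] at h4
        exact lt_irrefl _ h4
    · intro hc
      by_contra hcx
      have hcC := pop_mem_right hc
      have hcy := (pop_ne hc).symm
      rcases le_or_gt (dist y c) (dist x y) with hd | hd
      · have h3 := (ih2 c hcC hcx hcy hd y).1 (pop_symm_proof hc)
        have h4 := h2' c hcC hcx hcy hd
        rw [← h3, dist_comm] at h4
        exact lt_irrefl _ h4
      · obtain ⟨u, hu1, hu2⟩ := pop_left hc hx hxy (Ne.symm hcx)
          (by rw [dist_comm y x]; exact hd.le)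
        have huy : u ≠ y := by
          rintro rfl
          rw [dist_comm] at hu2
          exact lt_irrefl _ hu2
        have hux : u ≠ x := (pop_ne hu1).symm
        have huC := pop_mem_right hu1
        have hd' : dist x u ≤ dist x y := by
          rw [dist_comm x y]
          exact hu2.le
        have h3 := (ih1 u huC hux huy hd' x).1 (pop_symm_proof hu1)
        have h4 := h1' u huC hux huy hd'
        rw [← h3, dist_comm] at h4
        exact lt_irrefl _ h4

/-- POP (b): the partner is unique (for every C) -/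
theorem pop_unique_proof {C : Set H} {x y z : H} (h : Pop C x y) (h' : Pop C x z) : y = z :=
  ((pop_unique_aux h z).1 h').symm

theorem pop_image {g : Equiv.Perm H} (hg : Isometry g) {C : Set H} {x y : H} (h : Pop C x y) :
    Pop (g '' C) (g x) (g y) := by
  induction h with
  | mk x y w v hx hy hxy h1 h1' h2 h2' ih1 ih2 =>
    refine pop_intro (mem_image_of_mem g hx) (mem_image_of_mem g hy) (g.injective.ne hxy) ?_ ?_
    · rintro _ ⟨z, hz, rfl⟩ hzx hzy hd
      rw [hg.dist_eq, hg.dist_eq] at hd
      have hzx' : z ≠ x := fun h => hzx (by rw [h])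
      have hzy' : z ≠ y := fun h => hzy (by rw [h])
      refine ⟨g (w z), ih1 z hz hzx' hzy' hd, ?_⟩
      rw [hg.dist_eq, hg.dist_eq]
      exact h1' z hz hzx' hzy' hd
    · rintro _ ⟨z, hz, rfl⟩ hzx hzy hd
      rw [hg.dist_eq, hg.dist_eq] at hd
      have hzx' : z ≠ x := fun h => hzx (by rw [h])
      have hzy' : z ≠ y := fun h => hzy (by rw [h])
      refine ⟨g (v z), ih2 z hz hzx' hzy' hd, ?_⟩
      rw [hg.dist_eq, hg.dist_eq]
      exact h2' z hz hzx' hzy' hd

theorem pop_image_iff {g : Equiv.Perm H} (hg : Isometry g) {C : Set H} {x y : H} :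
    Pop (g '' C) (g x) (g y) ↔ Pop C x y := by
  refine ⟨fun h => ?_, pop_image hg⟩
  have hg' : Isometry g.symm := by
    refine Isometry.of_dist_eq fun a b => ?_
    rw [← hg.dist_eq, g.apply_symm_apply, g.apply_symm_apply]
  have h3 := pop_image hg' h
  rwa [← image_comp, g.symm_comp_self, image_id, g.symm_apply_apply, g.symm_apply_apply] at h3

/-- POP (c): equivariance -/
theorem alive_image_proof (g : Equiv.Perm H) (hg : Isometry g) (C : Set H) (t : ℝ≥0) :
    alive (g '' C) t = g '' alive C t := by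
  ext z
  obtain ⟨x, rfl⟩ := g.surjective z
  rw [g.injective.mem_set_image]
  unfold alive
  simp only [Set.mem_ofPred_eq, g.injective.mem_set_image]
  refine and_congr_right fun _ => ⟨fun h y hy => ?_, fun h y hy => ?_⟩
  · have := h (g y) (pop_image hg hy)
    rwa [hg.dist_eq] at this
  · obtain ⟨u, rfl⟩ := g.surjective y
    rw [hg.dist_eq]
    exact h u ((pop_image_iff hg).1 hy)

end Evol

end Pool.Agent.BB
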