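import Pool.Agent.Lib_helper34.BB.Defs
import Pool.Agent.Lib_helper89.BB.POP

/-!
# Block EVOL of MP_8d7770_pr: a good configuration has exactly one evolution.
-/

open MeasureTheory ProbabilityTheory Set Metric Function
open scoped ENNReal NNReal

namespace Pool.Agent.BB

section Evol

variable {H : Type} [MetricSpace H]

/-- The well founded relation on pairs. -/
def evolRel (C : Set H) (a b : H × H) : Prop :=
  (a.1 ∈ C ∧ a.2 ∈ C ∧ a.1 ≠ a.2) ∧ (b.1 ∈ C ∧ b.2 ∈ C ∧ b.1 ≠ b.2) ∧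
    (a.1 = b.1 ∨ a.1 = b.2) ∧ dist a.1 a.2 < dist b.1 b.2

theorem evolRel_wf {C : Set H} (hC : Good C) : WellFounded (evolRel C) := by
  rw [wellFounded_iff_isEmpty_descending_chain]
  refine ⟨fun ⟨f, hf⟩ => hC.noChain ⟨fun i => (f i).1, fun i => (f i).2, fun i => ?_, fun i => ?_⟩⟩
  · exact (hf i).2.1
  · exact ⟨(hf i).2.2.1, (hf i).2.2.2⟩

/-- The half distance as a time. -/
theorem evol_half (x y : H) : ∃ t : ℝ≥0, 2 * (t : ℝ) = dist x y :=
  ⟨⟨dist x y / 2, by positivity⟩, by show 2 * (dist x y / 2) = dist x y; ring⟩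

/-- The main step of both inductions. -/
theorem evol_step {C : Set H} (hC : Good C) {A : ℝ≥0 → Set H} {x y : H} (hx : x ∈ C) (hy : y ∈ C)
    (hxy : x ≠ y) (hP : ∀ s : ℝ≥0, 2 * (s : ℝ) < dist x y → x ∈ A s ∧ y ∈ A s)
    (hbad : ∀ z ∈ C, z ≠ x → dist x z < dist x y →
      ∀ t : ℝ≥0, 2 * (t : ℝ) = dist x z →
      (∀ s : ℝ≥0, 2 * (s : ℝ) < dist x z → x ∈ A s ∧ z ∈ A s) → x ∉ A t)
    (hpop : ∀ z ∈ C, z ≠ x → dist x z < dist x y → ∀ s : ℝ≥0, 2 * (s : ℝ) < dist x z →
      z ∉ A s → ∃ w, Pop C z w ∧ dist z w ≤ 2 * s)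
    (z : H) (hz : z ∈ C) (hzx : z ≠ x) (hzy : z ≠ y) (hd : dist x z ≤ dist x y) :
    ∃ w, Pop C z w ∧ dist z w < dist x z := by
  have hlt : dist x z < dist x y := by
    refine lt_of_le_of_ne hd ?_
    exact fun h => hC.noTie x hx y hy z hz hxy hzx.symm hzy.symm h.symm
  obtain ⟨t, ht⟩ := evol_half x z
  by_cases hQ : ∀ s : ℝ≥0, 2 * (s : ℝ) < dist x z → x ∈ A s ∧ z ∈ A s
  · exact absurd (hP t (by rw [ht]; exact hlt)).1 (hbad z hz hzx hlt t ht hQ)
  · push Not at hQ
    obtain ⟨s, hs, hs'⟩ := hQ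
    have hxs : x ∈ A s := (hP s (hs.trans hlt)).1
    obtain ⟨w, hw, hw'⟩ := hpop z hz hzx hlt s hs (hs' hxs)
    exact ⟨w, hw, hw'.trans_lt hs⟩

theorem alive_anti {C : Set H} {s t : ℝ≥0} (hst : s ≤ t) : alive C t ⊆ alive C s := by
  rintro x ⟨hx, h⟩
  refine ⟨hx, fun y hy hd => h y hy (hd.trans ?_)⟩
  have : (s : ℝ) ≤ t := by exact_mod_cast hst
  linarith

/-- In a good configuration both balloons present at all times before touching means popping. -/
theorem evol_pop_iff {C : Set H} (hC : Good C) {x y : H} (hx : x ∈ C) (hy : y ∈ C) (hxy : x ≠ y) :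
    (∀ s : ℝ≥0, 2 * (s : ℝ) < dist x y → x ∈ alive C s ∧ y ∈ alive C s) ↔ Pop C x y := by
  constructor
  · have key : ∀ q : H × H, q.1 ∈ C → q.2 ∈ C → q.1 ≠ q.2 →
        (∀ s : ℝ≥0, 2 * (s : ℝ) < dist q.1 q.2 → q.1 ∈ alive C s ∧ q.2 ∈ alive C s) →
        Pop C q.1 q.2 := by
      intro q
      induction q using (evolRel_wf hC).induction with
      | _ q ih =>
        obtain ⟨x, y⟩ := q
        intro hx hy hxy hP
        simp only at hx hy hxy hP ih ⊢
        have hnot : ∀ z : H, ∀ s : ℝ≥0, z ∈ C → z ∉ alive C s → ∃ w, Pop C z w ∧ dist z w ≤ 2 * s := by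
          intro z s hz hzs
          by_contra hcon
          push Not at hcon
          exact hzs ⟨hz, fun w hw => not_le.2 (hcon w hw)⟩
        refine pop_intro hx hy hxy ?_ ?_
        · refine evol_step hC hx hy hxy hP ?_ (fun z hz _ _ s _ h => hnot z s hz h)
          intro z hz hzx hlt t ht hQ hxt
          have h3 := ih (x, z) ⟨⟨hx, hz, hzx.symm⟩, ⟨hx, hy, hxy⟩, Or.inl rfl, hlt⟩ hx hz hzx.symm hQ
          exact hxt.2 z h3 ht.ge
        · have hP' : ∀ s : ℝ≥0, 2 * (s : ℝ) < dist y x → y ∈ alive C s ∧ x ∈ alive C s := by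
            intro s hs
            rw [dist_comm] at hs
            exact (hP s hs).symm
          intro z hz hzx hzy hd
          refine evol_step hC hy hx hxy.symm hP' ?_ (fun z hz _ _ s _ h => hnot z s hz h)
            z hz hzy hzx (by rw [dist_comm y x]; exact hd)
          intro z hz hzx hlt t ht hQ hxt
          have h3 := ih (y, z) ⟨⟨hy, hz, hzx.symm⟩, ⟨hx, hy, hxy⟩, Or.inr rfl,
            by rw [dist_comm x y]; exact hlt⟩ hy hz hzx.symm hQ
          exact hxt.2 z h3 ht.ge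
    exact key (x, y) hx hy hxy
  · intro h s hs
    refine ⟨⟨hx, fun z hz hd => ?_⟩, ⟨hy, fun z hz hd => ?_⟩⟩
    · rw [← pop_unique_proof h hz] at hd
      exact absurd hs (not_lt.2 hd)
    · rw [← pop_unique_proof (pop_symm_proof h) hz, dist_comm] at hd
      exact absurd hs (not_lt.2 hd)

theorem evol_iff {C : Set H} (hC : Good C) {A : ℝ≥0 → Set H} (hA : IsEvolution dist C A)
    {x y : H} (hx : x ∈ C) (hy : y ∈ C) (hxy : x ≠ y) :
    (∀ s : ℝ≥0, 2 * (s : ℝ) < dist x y → x ∈ A s ∧ y ∈ A s) ↔ Pop C x y := by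
  have key : ∀ q : H × H, q.1 ∈ C → q.2 ∈ C → q.1 ≠ q.2 →
      ((∀ s : ℝ≥0, 2 * (s : ℝ) < dist q.1 q.2 → q.1 ∈ A s ∧ q.2 ∈ A s) ↔
        Pop C q.1 q.2) := by
    intro q
    induction q using (evolRel_wf hC).transGen.induction with
    | _ q ih =>
      obtain ⟨x, y⟩ := q
      intro hx hy hxy
      simp only at hx hy hxy ih ⊢
      have hnot : ∀ z : H, ∀ s : ℝ≥0, z ∈ C → z ∉ A s → ∃ w ∈ C, w ≠ z ∧ dist z w ≤ 2 * s ∧
          ∀ s : ℝ≥0, 2 * (s : ℝ) < dist z w → z ∈ A s ∧ w ∈ A s := by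
        intro z s hz hzs
        rw [hA s z] at hzs
        push Not at hzs
        obtain ⟨w, hw, hwz, hd, hP⟩ := hzs hz
        exact ⟨w, hw, hwz, hd, hP⟩
      have hrx : ∀ z ∈ C, z ≠ x → dist x z < dist x y → evolRel C (x, z) (x, y) :=
        fun z hz hzx hlt => ⟨⟨hx, hz, hzx.symm⟩, ⟨hx, hy, hxy⟩, Or.inl rfl, hlt⟩
      have hry : ∀ z ∈ C, z ≠ y → dist y z < dist x y → evolRel C (y, z) (x, y) :=
        fun z hz hzx hlt => ⟨⟨hy, hz, hzx.symm⟩, ⟨hx, hy, hxy⟩, Or.inr rfl, hlt⟩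
      constructor
      · intro hP
        refine pop_intro hx hy hxy ?_ ?_
        · refine evol_step hC hx hy hxy hP ?_ ?_
          · intro z hz hzx hlt t ht hQ hxt
            exact ((hA t x).1 hxt).2 z hz hzx ht.ge hQ
          · intro z hz hzx hlt s hs hzs
            obtain ⟨w, hw, hwz, hd, hPw⟩ := hnot z s hz hzs
            have h3 := (ih (z, w) (Relation.TransGen.tail (Relation.TransGen.single
              ⟨⟨hz, hw, hwz.symm⟩, ⟨hx, hz, hzx.symm⟩, Or.inr rfl, hd.trans_lt hs⟩)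
              (hrx z hz hzx hlt)) hz hw hwz.symm).1 hPw
            exact ⟨w, h3, hd⟩
        · have hP' : ∀ s : ℝ≥0, 2 * (s : ℝ) < dist y x → y ∈ A s ∧ x ∈ A s := by
            intro s hs
            rw [dist_comm] at hs
            exact (hP s hs).symm
          intro z hz hzx hzy hd
          refine evol_step hC hy hx hxy.symm hP' ?_ ?_
            z hz hzy hzx (by rw [dist_comm y x]; exact hd)
          · intro z hz hzx hlt t ht hQ hxt
            exact ((hA t y).1 hxt).2 z hz hzx ht.ge hQ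
          · intro z hz hzy hlt s hs hzs
            obtain ⟨w, hw, hwz, hd, hPw⟩ := hnot z s hz hzs
            have h3 := (ih (z, w) (Relation.TransGen.tail (Relation.TransGen.single
              ⟨⟨hz, hw, hwz.symm⟩, ⟨hy, hz, hzy.symm⟩, Or.inr rfl, hd.trans_lt hs⟩)
              (hry z hz hzy (by rw [dist_comm x y]; exact hlt))) hz hw hwz.symm).1 hPw
            exact ⟨w, h3, hd⟩
      · intro hpop s hs
        constructor
        · by_contra hxs
          obtain ⟨z, hz, hzx, hd, hPz⟩ := hnot x s hx hxs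
          have h3 : Pop C x z := (ih (x, z) (Relation.TransGen.single
            (hrx z hz hzx (hd.trans_lt hs))) hx hz hzx.symm).1 hPz
          rw [← pop_unique_proof hpop h3] at hd
          exact absurd hs (not_lt.2 hd)
        · by_contra hys
          obtain ⟨z, hz, hzy, hd, hPz⟩ := hnot y s hy hys
          have h3 : Pop C y z := (ih (y, z) (Relation.TransGen.single
            (hry z hz hzy (hd.trans_lt hs))) hy hz hzy.symm).1 hPz
          rw [← pop_unique_proof (pop_symm_proof hpop) h3, dist_comm] at hd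
          exact absurd hs (not_lt.2 hd)
  exact key (x, y) hx hy hxy

/-- EVOL (a): a good configuration has exactly one evolution -/
theorem evol_proof {C : Set H} (hC : Good C) :
    IsEvolution dist C (alive C) ∧ ∀ A, IsEvolution dist C A → A = alive C := by
  constructor
  · intro t x
    constructor
    · rintro ⟨hx, h⟩
      refine ⟨hx, fun y hy hyx hd hP => ?_⟩
      exact h y ((evol_pop_iff hC hx hy hyx.symm).1 hP) hd
    · rintro ⟨hx, h⟩
      refine ⟨hx, fun y hy hd => ?_⟩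
      exact h y (pop_mem_right hy) (pop_ne hy).symm hd
        ((evol_pop_iff hC hx (pop_mem_right hy) (pop_ne hy)).2 hy)
  · intro A hA
    funext t
    ext x
    rw [hA t x]
    constructor
    · rintro ⟨hx, h⟩
      refine ⟨hx, fun y hy hd => ?_⟩
      exact h y (pop_mem_right hy) (pop_ne hy).symm hd
        ((evol_iff hC hA hx (pop_mem_right hy) (pop_ne hy)).2 hy)
    · rintro ⟨hx, h⟩
      refine ⟨hx, fun y hy hyx hd hP => ?_⟩
      exact h y ((evol_iff hC hA hx hy hyx.symm).1 hP) hd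

theorem alive_nbr_aux {C : Set H} (hC : Good C) {t : ℝ≥0} {x y : H} (hx : x ∈ alive C t)
    (hy : y ∈ C) (hxy : y ≠ x) (hd : dist x y ≤ 2 * t) :
    ∃ s : ℝ≥0, s ≤ t ∧ 2 * (s : ℝ) < dist x y ∧ y ∉ alive C s := by
  have h1 : ¬ ∀ s : ℝ≥0, 2 * (s : ℝ) < dist x y → x ∈ alive C s ∧ y ∈ alive C s := by
    intro h
    exact hx.2 y ((evol_pop_iff hC hx.1 hy hxy.symm).1 h) hd
  push Not at h1
  obtain ⟨s, hs, hs'⟩ := h1
  have hst : s ≤ t := by
    have : (s : ℝ) ≤ t := by linarith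
    exact_mod_cast this
  exact ⟨s, hst, hs, hs' (alive_anti hst hx)⟩

/-- EVOL (b): separation -/
theorem alive_sep_proof {C : Set H} (hC : Good C) {t : ℝ≥0} {x y : H} (hx : x ∈ alive C t)
    (hy : y ∈ alive C t) (hxy : x ≠ y) : 2 * (t : ℝ) < dist x y := by
  by_contra h
  obtain ⟨s, hst, hs, hs'⟩ := alive_nbr_aux hC hx hy.1 hxy.symm (not_lt.1 h)
  exact hs' (alive_anti hst hy)

/-- EVOL (c): the neighbours of a living balloon have popped before -/
theorem alive_nbr_proof {C : Set H} (hC : Good C) {t : ℝ≥0} {x y : H} (hx : x ∈ alive C t)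
    (hy : y ∈ C) (hxy : y ≠ x) (hd : dist x y ≤ 2 * t) :
    ∃ z, Pop C y z ∧ dist y z < dist x y := by
  obtain ⟨s, hst, hs, hs'⟩ := alive_nbr_aux hC hx hy hxy hd
  by_contra hcon
  push Not at hcon
  exact hs' ⟨hy, fun z hz => not_le.2 (hs.trans_le (hcon z hz))⟩

end Evol

end Pool.Agent.BB
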