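import Pool.Agent.Lib_helper34.BB.Defs
import Pool.Agent.Lib_helper89.BB.EVOL

/-!
# Block STAB of MP_8d7770_pr: popping and survival are stable under small perturbations.
-/

open MeasureTheory ProbabilityTheory Set Metric Function Filter
open scoped ENNReal NNReal Topology

namespace Pool.Agent.BB

section Evol

variable {H : Type} [MetricSpace H]

/-- Large radius, small perturbation. -/
def stabF : Filter (ℝ × ℝ) := atTop ×ˢ 𝓝[>] (0 : ℝ)

theorem stab_large (c : ℝ) : ∀ᶠ p : ℝ × ℝ in stabF, c ≤ p.1 :=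
  (eventually_ge_atTop c).prod_inl _

theorem stab_pos : ∀ᶠ p : ℝ × ℝ in stabF, 0 < p.2 :=
  (eventually_mem_nhdsWithin : ∀ᶠ e : ℝ in 𝓝[>] (0 : ℝ), e ∈ Ioi (0 : ℝ)).prod_inr _

theorem stab_small {c : ℝ} (hc : 0 < c) : ∀ᶠ p : ℝ × ℝ in stabF, p.2 < c :=
  (eventually_nhdsWithin_of_eventually_nhds (eventually_lt_nhds hc)).prod_inr _

theorem stab_conv {φ : ℝ → ℝ → Prop} (h : ∀ᶠ p : ℝ × ℝ in stabF, φ p.1 p.2) :
    ∃ R ε₀ : ℝ, 0 < ε₀ ∧ ∀ ε : ℝ, 0 < ε → ε ≤ ε₀ → φ R ε := by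
  obtain ⟨pa, hpa, pb, hpb, hφ⟩ := eventually_prod_iff.1 h
  obtain ⟨R, hR⟩ := hpa.exists
  obtain ⟨e, he, hsub⟩ := mem_nhdsGT_iff_exists_Ioc_subset.1 hpb
  exact ⟨R, e, he, fun ε h1 h2 => hφ hR (hsub ⟨h1, h2⟩)⟩

/-- Gap: the points which are at distance larger than d are at distance larger than d + 4 ε. -/
theorem stab_gap {C : Set H} (hlf : ∀ (x : H) (r : ℝ), (C ∩ closedBall x r).Finite) (x : H)
    (d : ℝ) : ∀ᶠ p : ℝ × ℝ in stabF, ∀ u ∈ C, dist x u < d + 4 * p.2 → dist x u ≤ d := by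
  have h1 : ∀ᶠ p : ℝ × ℝ in stabF, ∀ u ∈ C ∩ closedBall x (d + 1), d < dist x u →
      d + 4 * p.2 < dist x u := by
    rw [eventually_all_finite (hlf x (d + 1))]
    intro u _
    by_cases hu : d < dist x u
    · filter_upwards [stab_small (c := (dist x u - d) / 4) (by linarith)] with p hp _
      linarith
    · exact Eventually.of_forall fun p h => absurd h hu
  filter_upwards [h1, stab_small (c := 1 / 4) (by norm_num)] with p hp hp4 u hu hd
  by_contra hcon
  have h2 := hp u ⟨hu, by rw [mem_closedBall, dist_comm]; linarith⟩ (not_le.1 hcon)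
  linarith

theorem stab_half {C : Set H} (hlf : ∀ (x : H) (r : ℝ), (C ∩ closedBall x r).Finite) (o : H)
    {x y : H} (hxy : x ≠ y) (hx : x ∈ C) (w : H → H)
    (h1 : ∀ z, z ∈ C → z ≠ x → z ≠ y → dist x z ≤ dist x y → Pop C z (w z))
    (h1' : ∀ z, z ∈ C → z ≠ x → z ≠ y → dist x z ≤ dist x y → dist z (w z) < dist x z)
    (ih : ∀ z, z ∈ C → z ≠ x → z ≠ y → dist x z ≤ dist x y →
      ∀ᶠ p : ℝ × ℝ in stabF, ∀ C' : Set H, Near C C' o p.1 p.2 →
      ∀ z' ∈ C', ∀ w' ∈ C', dist z z' < p.2 → dist (w z) w' < p.2 → Pop C' z' w') :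
    ∀ᶠ p : ℝ × ℝ in stabF, ∀ C' : Set H, Near C C' o p.1 p.2 →
      ∀ x' ∈ C', ∀ y' ∈ C', dist x x' < p.2 → dist y y' < p.2 →
      ∀ z' ∈ C', z' ≠ x' → z' ≠ y' → dist x' z' ≤ dist x' y' →
        ∃ w', Pop C' z' w' ∧ dist z' w' < dist x' z' := by
  have e1 : ∀ᶠ p : ℝ × ℝ in stabF, ∀ z ∈ C ∩ closedBall x (dist x y), z ≠ x → z ≠ y →
      (∀ C' : Set H, Near C C' o p.1 p.2 →
        ∀ z' ∈ C', ∀ w' ∈ C', dist z z' < p.2 → dist (w z) w' < p.2 → Pop C' z' w') ∧
      dist z (w z) + 4 * p.2 < dist x z := by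
    rw [eventually_all_finite (hlf x (dist x y))]
    rintro z ⟨hz, hzd⟩
    rw [mem_closedBall, dist_comm] at hzd
    by_cases hzx : z = x
    · exact Eventually.of_forall fun p h => absurd hzx h
    by_cases hzy : z = y
    · exact Eventually.of_forall fun p _ h => absurd hzy h
    have h3 := h1' z hz hzx hzy hzd
    filter_upwards [ih z hz hzx hzy hzd,
      stab_small (c := (dist x z - dist z (w z)) / 4) (by linarith)] with p hp hp2 _ _
    exact ⟨hp, by linarith⟩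
  filter_upwards [e1, stab_gap hlf x (dist x y), stab_pos, stab_small (c := 1 / 4) (by norm_num),
    stab_large (dist o x + 2 * dist x y + 2)] with p hp hgap hpos hsm hlarge
  intro C' hC' x' hx' y' hy' hxx' hyy' z' hz' hzx' hzy' hd
  obtain ⟨hN1, hN2, hN3⟩ := hC'
  have hd1 : dist x' y' ≤ dist x y + 2 * p.2 := by
    calc dist x' y' ≤ dist x' x + dist x y + dist y y' := dist_triangle4 _ _ _ _
      _ ≤ _ := by rw [dist_comm x' x]; linarith
  have hox : dist o x' ≤ p.1 := by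
    calc dist o x' ≤ dist o x + dist x x' := dist_triangle _ _ _
      _ ≤ _ := by linarith [dist_nonneg (x := x) (y := y)]
  have hoy : dist o y' ≤ p.1 := by
    calc dist o y' ≤ dist o x + dist x y + dist y y' := dist_triangle4 _ _ _ _
      _ ≤ _ := by linarith [dist_nonneg (x := x) (y := y)]
  have hoz : dist o z' ≤ p.1 := by
    calc dist o z' ≤ dist o x + dist x x' + dist x' z' := dist_triangle4 _ _ _ _
      _ ≤ _ := by linarith [dist_nonneg (x := x) (y := y)]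
  obtain ⟨z, hz, hzz'⟩ := hN1 z' hz' hoz
  have hzx : z ≠ x := by
    rintro rfl
    exact hzx' (hN3 z' hz' x' hx' hoz hox z hz hzz' hxx')
  have hzy : z ≠ y := by
    rintro rfl
    exact hzy' (hN3 z' hz' y' hy' hoz hoy z hz hzz' hyy')
  have hdz : dist x z ≤ dist x y := by
    refine hgap z hz ?_
    calc dist x z ≤ dist x x' + dist x' z' + dist z' z := dist_triangle4 _ _ _ _
      _ < _ := by rw [dist_comm z' z]; linarith
  have hzb : z ∈ C ∩ closedBall x (dist x y) := ⟨hz, by rwa [mem_closedBall, dist_comm]⟩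
  obtain ⟨hz1, hz2⟩ := hp z hzb hzx hzy
  have hw := pop_mem_right (h1 z hz hzx hzy hdz)
  have how : dist o (w z) ≤ p.1 := by
    calc dist o (w z) ≤ dist o x + dist x z + dist z (w z) := dist_triangle4 _ _ _ _
      _ ≤ _ := by linarith [dist_nonneg (x := x) (y := y)]
  obtain ⟨w', hw', hww'⟩ := hN2 (w z) hw how
  refine ⟨w', hz1 C' ⟨hN1, hN2, hN3⟩ z' hz' w' hw' hzz' hww', ?_⟩
  have h5 : dist z' w' ≤ dist z (w z) + 2 * p.2 := by
    calc dist z' w' ≤ dist z' z + dist z (w z) + dist (w z) w' := dist_triangle4 _ _ _ _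
      _ ≤ _ := by rw [dist_comm z' z]; linarith
  have h6 : dist x z ≤ dist x' z' + 2 * p.2 := by
    calc dist x z ≤ dist x x' + dist x' z' + dist z' z := dist_triangle4 _ _ _ _
      _ ≤ _ := by rw [dist_comm z' z]; linarith
  linarith

theorem stab_pop_filter {C : Set H} (hlf : ∀ (x : H) (r : ℝ), (C ∩ closedBall x r).Finite)
    (o : H) {x y : H} (h : Pop C x y) :
    ∀ᶠ p : ℝ × ℝ in stabF, ∀ C' : Set H, Near C C' o p.1 p.2 →
      ∀ x' ∈ C', ∀ y' ∈ C', dist x x' < p.2 → dist y y' < p.2 → Pop C' x' y' := by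
  induction h with
  | mk x y w v hx hy hxy h1 h1' h2 h2' ih1 ih2 =>
    have e1 := stab_half hlf o hxy hx w h1 h1' ih1
    have e2 := stab_half hlf o hxy.symm hy v
      (fun z hz hzy hzx hd => h2 z hz hzx hzy (by rwa [dist_comm x y]))
      (fun z hz hzy hzx hd => h2' z hz hzx hzy (by rwa [dist_comm x y]))
      (fun z hz hzy hzx hd => ih2 z hz hzx hzy (by rwa [dist_comm x y]))
    have hd0 : 0 < dist x y := dist_pos.2 hxy
    filter_upwards [e1, e2, stab_small (c := dist x y / 2) (by linarith)] with p hp1 hp2 hp3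
    intro C' hC' x' hx' y' hy' hxx' hyy'
    refine pop_intro hx' hy' ?_ ?_ ?_
    · rintro rfl
      have : dist x y ≤ dist x x' + dist x' y := dist_triangle _ _ _
      rw [dist_comm x' y] at this
      linarith
    · intro z' hz' hzx hzy hd
      exact hp1 C' hC' x' hx' y' hy' hxx' hyy' z' hz' hzx hzy hd
    · intro z' hz' hzx hzy hd
      exact hp2 C' hC' y' hy' x' hx' hyy' hxx' z' hz' hzy hzx (by rwa [dist_comm y' x'])

/-- STAB (a): Pop is stable under small perturbations -/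
theorem stab_pop_proof {C : Set H} (hlf : ∀ (x : H) (r : ℝ), (C ∩ closedBall x r).Finite)
    (o : H) {x y : H} (h : Pop C x y) :
    ∃ R ε₀ : ℝ, 0 < ε₀ ∧ ∀ ε : ℝ, 0 < ε → ε ≤ ε₀ → ∀ C' : Set H, Near C C' o R ε →
      ∀ x' ∈ C', ∀ y' ∈ C', dist x x' < ε → dist y y' < ε → Pop C' x' y' :=
  stab_conv (φ := fun R ε => ∀ C' : Set H, Near C C' o R ε →
      ∀ x' ∈ C', ∀ y' ∈ C', dist x x' < ε → dist y y' < ε → Pop C' x' y')
    (stab_pop_filter hlf o h)

/-- STAB (b): survival in an open set is stable under small perturbations -/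
theorem stab_alive_proof {C : Set H} (hC : Good C) (o : H) {B : Set H} (hB : IsOpen B)
    {t : ℝ≥0} {x : H} (hxB : x ∈ B) (hx : x ∈ alive C t) :
    ∃ R ε₀ : ℝ, 0 < ε₀ ∧ ∀ ε : ℝ, 0 < ε → ε ≤ ε₀ → ∀ C' : Set H, Near C C' o R ε →
      ∃ x' ∈ B, x' ∈ alive C' t := by
  refine stab_conv (φ := fun R ε => ∀ C' : Set H, Near C C' o R ε → ∃ x' ∈ B, x' ∈ alive C' t) ?_
  obtain ⟨δ, hδ, hδB⟩ := Metric.isOpen_iff.1 hB x hxB
  have e1 : ∀ᶠ p : ℝ × ℝ in stabF, ∀ y ∈ C ∩ closedBall x (2 * t), y ≠ x →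
      ∃ z, Pop C y z ∧ dist y z + 4 * p.2 < dist x y ∧
      (∀ C' : Set H, Near C C' o p.1 p.2 →
        ∀ y' ∈ C', ∀ z' ∈ C', dist y y' < p.2 → dist z z' < p.2 → Pop C' y' z') := by
    rw [eventually_all_finite (hC.lf x (2 * t))]
    rintro y ⟨hy, hyd⟩
    rw [mem_closedBall, dist_comm] at hyd
    by_cases hyx : y = x
    · exact Eventually.of_forall fun p h => absurd hyx h
    obtain ⟨z, hz, hz'⟩ := alive_nbr_proof hC hx hy hyx hyd
    filter_upwards [stab_pop_filter hC.lf o hz,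
      stab_small (c := (dist x y - dist y z) / 4) (by linarith)] with p hp hp2 _
    exact ⟨z, hz, by linarith, hp⟩
  filter_upwards [e1, stab_gap hC.lf x (2 * t), stab_pos, stab_small (c := 1 / 4) (by norm_num),
    stab_small hδ, stab_large (dist o x + 4 * t + 2)] with p hp hgap hpos hsm hpδ hlarge
  intro C' hC'
  obtain ⟨hN1, hN2, hN3⟩ := hC'
  have ht : (0 : ℝ) ≤ t := t.2
  obtain ⟨x', hx', hxx'⟩ := hN2 x hx.1 (by linarith)
  refine ⟨x', hδB (by rw [mem_ball, dist_comm]; exact hxx'.trans hpδ), hx', fun y' hy' hd => ?_⟩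
  have hyC' := pop_mem_right hy'
  have hox : dist o x' ≤ p.1 := by
    calc dist o x' ≤ dist o x + dist x x' := dist_triangle _ _ _
      _ ≤ _ := by linarith
  have hoy : dist o y' ≤ p.1 := by
    calc dist o y' ≤ dist o x + dist x x' + dist x' y' := dist_triangle4 _ _ _ _
      _ ≤ _ := by linarith
  obtain ⟨y, hy, hyy'⟩ := hN1 y' hyC' hoy
  have hyx : y ≠ x := by
    rintro rfl
    exact pop_ne hy' (hN3 x' hx' y' hyC' hox hoy y hy hxx' hyy')
  have hdy : dist x y ≤ 2 * t := by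
    refine hgap y hy ?_
    calc dist x y ≤ dist x x' + dist x' y' + dist y' y := dist_triangle4 _ _ _ _
      _ < _ := by rw [dist_comm y' y]; linarith
  obtain ⟨z, hz, hz1, hz2⟩ := hp y ⟨hy, by rwa [mem_closedBall, dist_comm]⟩ hyx
  have hoz : dist o z ≤ p.1 := by
    calc dist o z ≤ dist o x + dist x y + dist y z := dist_triangle4 _ _ _ _
      _ ≤ _ := by linarith
  obtain ⟨z', hz', hzz'⟩ := hN2 z (pop_mem_right hz) hoz
  have hpop := hz2 C' ⟨hN1, hN2, hN3⟩ y' hyC' z' hz' hyy' hzz'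
  have heq : x' = z' := pop_unique_proof (pop_symm_proof hy') hpop
  have h5 : dist y' z' ≤ dist y z + 2 * p.2 := by
    calc dist y' z' ≤ dist y' y + dist y z + dist z z' := dist_triangle4 _ _ _ _
      _ ≤ _ := by rw [dist_comm y' y]; linarith
  have h6 : dist x y ≤ dist x' y' + 2 * p.2 := by
    calc dist x y ≤ dist x x' + dist x' y' + dist y' y := dist_triangle4 _ _ _ _
      _ ≤ _ := by rw [dist_comm y' y]; linarith
  rw [← heq, dist_comm y' x'] at h5
  linarith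

end Evol

end Pool.Agent.BB
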